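import Mathlib

set_option autoImplicit false

/-!
# Project UY, job UY4: symplectic bases and the combinatorial lemma
-/

open Finset Module

namespace Pool.Agent.Q2.UY

/-- the standard alternating form in two variables -/
def sg (a b : Fin 2) : ℤ := if a = 0 ∧ b = 1 then 1 else if a = 1 ∧ b = 0 then -1 else 0

theorem sg_perm : ∀ ρ : Equiv.Perm (Fin 2), sg (ρ 0) (ρ 1) = (Equiv.Perm.sign ρ : ℤ) := by
  decide

/-- a symplectic basis -/
theorem sbasis {K : Type} [Field K] (n : ℕ) : ∀ (V : Type) [AddCommGroup V] [Module K V]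
    [FiniteDimensional K V]
    (ω : V →ₗ[K] V →ₗ[K] K), (∀ x, ω x x = 0) → (∀ x, (∀ y, ω x y = 0) → x = 0) →
    finrank K V = n → ∃ (d : ℕ) (v : Fin d × Fin 2 → V), n = 2 * d ∧
      ∀ p q, ω (v p) (v q) = if p.1 = q.1 then ((sg p.2 q.2 : ℤ) : K) else 0 := by
  induction n using Nat.twoStepInduction with
  | zero =>
    intro V _ _ _ ω _ _ _
    exact ⟨0, fun i => i.1.elim0, rfl, fun i => i.1.elim0⟩
  | one =>
    intro V _ _ _ ω halt hnd hn
    exfalso
    obtain ⟨x, hx⟩ : ∃ x : V, x ≠ 0 := by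
      have : Nontrivial V := Module.nontrivial_of_finrank_pos (R := K) (by omega)
      exact exists_ne 0
    apply hx
    apply hnd
    intro y
    obtain ⟨t, ht⟩ := (finrank_eq_one_iff_of_nonzero' x hx).mp hn y
    rw [← ht, map_smul, halt, smul_zero]
  | more m ih _ =>
    intro V _ _ _ ω halt hnd hn
    have hskew : ∀ x y, ω x y = -ω y x := by
      intro x y
      have h := halt (x + y)
      simp only [map_add, LinearMap.add_apply, halt, zero_add, add_zero] at h
      exact eq_neg_of_add_eq_zero_right h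
    obtain ⟨e, he⟩ : ∃ x : V, x ≠ 0 := by
      have : Nontrivial V := Module.nontrivial_of_finrank_pos (R := K) (by omega)
      exact exists_ne 0
    obtain ⟨f₀, hf₀⟩ : ∃ y, ω e y ≠ 0 := by
      by_contra h
      push Not at h
      exact he (hnd e h)
    obtain ⟨f, hf⟩ : ∃ f, ω e f = 1 :=
      ⟨(ω e f₀)⁻¹ • f₀, by rw [map_smul, smul_eq_mul, inv_mul_cancel₀ hf₀]⟩
    have hfe : ω f e = -1 := by rw [hskew, hf]
    -- the orthogonal complement
    let φ : V →ₗ[K] K × K := (ω e).prod (ω f)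
    have hφ : ∀ x, φ x = (ω e x, ω f x) := fun x => rfl
    have hsurj : LinearMap.range φ = ⊤ := by
      rw [LinearMap.range_eq_top]
      rintro ⟨a, b⟩
      refine ⟨a • f - b • e, ?_⟩
      rw [hφ]
      simp only [map_sub, map_smul, hf, hfe, halt, smul_eq_mul, mul_one, mul_zero, sub_zero,
        zero_sub, mul_neg, neg_neg]
    have hdim : finrank K (LinearMap.ker φ) = m := by
      have h1 := LinearMap.finrank_range_add_finrank_ker φ
      rw [hsurj, finrank_top, Module.finrank_prod, Module.finrank_self, hn] at h1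
      omega
    have hmem : ∀ x : V, x ∈ LinearMap.ker φ ↔ ω e x = 0 ∧ ω f x = 0 := by
      intro x
      rw [LinearMap.mem_ker, hφ, Prod.mk_eq_zero]
    -- the form on the complement
    let ω' : LinearMap.ker φ →ₗ[K] LinearMap.ker φ →ₗ[K] K :=
      (ω.domRestrict₁₂ (LinearMap.ker φ) (LinearMap.ker φ))
    have hω' : ∀ x y, ω' x y = ω (x : V) (y : V) := fun x y => rfl
    obtain ⟨d, w, hd, hw⟩ := ih (LinearMap.ker φ) ω' (fun x => halt _) (by
      intro x hx
      apply Subtype.ext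
      apply hnd
      intro y
      obtain ⟨h1, h2⟩ := (hmem x).mp x.2
      have hy : y - ω e y • f + ω f y • e ∈ LinearMap.ker φ := by
        rw [hmem]
        constructor
        · simp only [map_add, map_sub, map_smul, hf, halt, smul_eq_mul, mul_one, mul_zero,
            add_zero, sub_self]
        · simp only [map_add, map_sub, map_smul, hfe, halt, smul_eq_mul, mul_zero, sub_zero,
            mul_neg, mul_one, add_neg_cancel]
      have h3 := hx ⟨_, hy⟩
      rw [hω'] at h3
      simp only [map_add, map_sub, map_smul, smul_eq_mul] at h3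
      rw [hskew (x : V) f, hskew (x : V) e, h1, h2] at h3
      simpa using h3) hdim
    have hwe : ∀ i, ω e (w i) = 0 := fun i => ((hmem _).mp (w i).2).1
    have hwf : ∀ i, ω f (w i) = 0 := fun i => ((hmem _).mp (w i).2).2
    have hwe' : ∀ i, ω (w i : V) e = 0 := fun i => by rw [hskew, hwe, neg_zero]
    have hwf' : ∀ i, ω (w i : V) f = 0 := fun i => by rw [hskew, hwf, neg_zero]
    let v : Fin (d + 1) × Fin 2 → V := fun p =>
      Fin.cons (α := fun _ => Fin 2 → V) (fun a => if a = 0 then e else f)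
        (fun i a => (w (i, a) : V)) p.1 p.2
    have v0 : v (0, 0) = e := rfl
    have v1 : v (0, 1) = f := rfl
    have vs : ∀ i a, v (Fin.succ i, a) = w (i, a) := fun i a => rfl
    refine ⟨d + 1, v, by omega, ?_⟩
    rintro ⟨i, a⟩ ⟨j, b⟩
    have hcase2 : ∀ a : Fin 2, a = 0 ∨ a = 1 := by decide
    have hcase : ∀ i : Fin (d + 1), i = 0 ∨ ∃ k : Fin d, i = Fin.succ k := by
      intro i
      exact Fin.cases (Or.inl rfl) (fun j => Or.inr ⟨j, rfl⟩) i
    have hs00 : sg 0 0 = 0 := by decide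
    have hs01 : sg 0 1 = 1 := by decide
    have hs10 : sg 1 0 = -1 := by decide
    have hs11 : sg 1 1 = 0 := by decide
    rcases hcase i with rfl | ⟨k, rfl⟩ <;> rcases hcase j with rfl | ⟨l, rfl⟩
    · rw [if_pos rfl]
      rcases hcase2 a with rfl | rfl <;> rcases hcase2 b with rfl | rfl
      · rw [v0, halt, hs00, Int.cast_zero]
      · rw [v0, v1, hf, hs01, Int.cast_one]
      · rw [v0, v1, hfe, hs10, Int.cast_neg, Int.cast_one]
      · rw [v1, halt, hs11, Int.cast_zero]
    · rw [if_neg (Fin.succ_ne_zero l).symm, vs]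
      rcases hcase2 a with rfl | rfl
      · rw [v0, hwe]
      · rw [v1, hwf]
    · rw [if_neg (Fin.succ_ne_zero k), vs]
      rcases hcase2 b with rfl | rfl
      · rw [v0, hwe']
      · rw [v1, hwf']
    · rw [vs, vs]
      have h5 := hw (k, a) (l, b)
      rw [hω'] at h5
      rw [h5]
      simp only [Fin.succ_inj]

/-- the Gram matrix of the symplectic basis -/
def JJ (K : Type) [Field K] (d : ℕ) : Matrix (Fin d × Fin 2) (Fin d × Fin 2) K :=
  fun p q => if p.1 = q.1 then ((sg p.2 q.2 : ℤ) : K) else 0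

theorem JJ_sq (K : Type) [Field K] (d : ℕ) : JJ K d * JJ K d = -1 := by
  ext ⟨i, a⟩ ⟨j, b⟩
  rw [Matrix.mul_apply, Fintype.sum_prod_type]
  simp only [JJ, ite_mul, zero_mul, mul_ite, mul_zero]
  rw [Matrix.neg_apply, Matrix.one_apply]
  by_cases hij : i = j
  · subst hij
    rw [Finset.sum_eq_single i]
    · simp only [if_true]
      have h : ∀ a b : Fin 2, ∑ c, sg a c * sg c b = -(if a = b then 1 else 0) := by decide
      have h2 := congrArg (fun z : ℤ => (z : K)) (h a b)
      simp only [Int.cast_sum, Int.cast_mul, Int.cast_neg] at h2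
      rw [h2]
      by_cases hab : a = b
      · simp [hab]
      · simp [hab]
    · intro k _ hk
      apply Finset.sum_eq_zero
      intro c _
      rw [if_neg hk.symm]
      simp
    · intro h
      exact absurd (Finset.mem_univ _) h
  · rw [if_neg (by intro h; exact hij (Prod.ext_iff.mp h).1)]
    rw [neg_zero]
    apply Finset.sum_eq_zero
    intro k _
    apply Finset.sum_eq_zero
    intro c _
    by_cases h1 : i = k
    · subst h1
      rw [if_neg hij]
    · rw [if_neg h1]
      simp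

/-- a symplectic basis as a basis -/
theorem sbasis' {K : Type} [Field K] (V : Type) [AddCommGroup V] [Module K V]
    [FiniteDimensional K V]
    (ω : V →ₗ[K] V →ₗ[K] K) (h1 : ∀ x, ω x x = 0) (h2 : ∀ x, (∀ y, ω x y = 0) → x = 0) :
    ∃ (d : ℕ) (s : Module.Basis (Fin d × Fin 2) K V),
      ∀ p q, ω (s p) (s q) = JJ K d p q := by
  obtain ⟨d, v, hd, hv⟩ := sbasis _ V ω h1 h2 rfl
  have hli : LinearIndependent K v := by
    rw [Fintype.linearIndependent_iff]
    intro g hg
    have h3 : Matrix.vecMul g (JJ K d) = 0 := by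
      funext q
      have h4 := congrArg (fun z => ω z (v q)) hg
      simp only [map_sum, map_smul, LinearMap.sum_apply, LinearMap.smul_apply, map_zero,
        LinearMap.zero_apply, smul_eq_mul] at h4
      rw [Matrix.vecMul, dotProduct, Pi.zero_apply, ← h4]
      apply Finset.sum_congr rfl
      intro p _
      rw [hv]
      rfl
    have h5 := congrArg (fun z => Matrix.vecMul z (JJ K d)) h3
    simp only [Matrix.vecMul_vecMul, JJ_sq, Matrix.vecMul_neg, Matrix.vecMul_one,
      Matrix.zero_vecMul] at h5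
    intro i
    have h6 := congrFun h5 i
    simpa using h6
  have hcard : Fintype.card (Fin d × Fin 2) = finrank K V := by
    rw [Fintype.card_prod, Fintype.card_fin, Fintype.card_fin, hd]
    ring
  have hne : d = 0 ∨ 0 < d := Nat.eq_zero_or_pos d
  rcases hne with rfl | hpos
  · have hsub : Subsingleton V := by
      rw [← Module.finrank_zero_iff (R := K)]
      omega
    refine ⟨0, Module.Basis.empty V, fun p => p.1.elim0⟩
  · have : Nonempty (Fin d × Fin 2) := ⟨(⟨0, hpos⟩, 0)⟩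
    refine ⟨d, basisOfLinearIndependentOfCardEqFinrank hli hcard, fun p q => ?_⟩
    rw [coe_basisOfLinearIndependentOfCardEqFinrank, hv]
    rfl

/-! ## The permutations preserving the pairs -/

/-- a permutation of the pairs and of the members of each pair -/
def Th {n : ℕ} (x : Equiv.Perm (Fin n) × (Fin n → Equiv.Perm (Fin 2))) :
    Equiv.Perm (Fin n × Fin 2) :=
  (Equiv.prodCongrLeft fun _ : Fin 2 => x.1) * Equiv.prodCongrRight x.2

theorem Th_apply {n : ℕ} (x : Equiv.Perm (Fin n) × (Fin n → Equiv.Perm (Fin 2))) (j : Fin n)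
    (a : Fin 2) : Th x (j, a) = (x.1 j, x.2 j a) := rfl

theorem Th_sign {n : ℕ} (x : Equiv.Perm (Fin n) × (Fin n → Equiv.Perm (Fin 2))) :
    Equiv.Perm.sign (Th x) = ∏ j, Equiv.Perm.sign (x.2 j) := by
  rw [Th, Equiv.Perm.sign_mul, Equiv.Perm.sign_prodCongrLeft, Equiv.Perm.sign_prodCongrRight,
    Finset.prod_const, Finset.card_univ, Fintype.card_fin, Int.units_sq, one_mul]

theorem Th_inj {n : ℕ} : Function.Injective (Th (n := n)) := by
  intro x y h
  have h1 : ∀ j a, ((x.1 j, x.2 j a) : Fin n × Fin 2) = (y.1 j, y.2 j a) := by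
    intro j a
    rw [← Th_apply, ← Th_apply, h]
  apply Prod.ext
  · apply Equiv.ext
    intro j
    exact (Prod.ext_iff.mp (h1 j 0)).1
  · funext j
    apply Equiv.ext
    intro a
    exact (Prod.ext_iff.mp (h1 j a)).2

theorem two {n : ℕ} (x y z : Fin n × Fin 2) (h : x.1 = y.1) (hne : x ≠ y) (hz : z.1 = x.1) :
    z = x ∨ z = y := by
  obtain ⟨i, a⟩ := x
  obtain ⟨j, b⟩ := y
  obtain ⟨k, c⟩ := z
  simp only at h hz
  subst h
  subst hz
  have hab : a ≠ b := fun e => hne (by rw [e])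
  have h3 : ∀ a b c : Fin 2, a ≠ b → c = a ∨ c = b := by decide
  rcases h3 a b c hab with rfl | rfl
  · exact Or.inl rfl
  · exact Or.inr rfl

theorem Th_range {n : ℕ} (τ : Equiv.Perm (Fin n × Fin 2))
    (h : ∀ j, (τ (j, 0)).1 = (τ (j, 1)).1) : ∃ x, Th x = τ := by
  have hne : ∀ j, τ (j, 0) ≠ τ (j, 1) := by
    intro j he
    have := τ.injective he
    simp at this
  have hc : Function.Injective fun j => (τ (j, 0)).1 := by
    intro j j' hjj
    simp only at hjj
    rcases two _ _ (τ (j', 0)) (h j) (hne j) hjj.symm with h1 | h1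
    · have := τ.injective h1
      exact (Prod.ext_iff.mp this).1.symm
    · have := τ.injective h1
      exact (Prod.ext_iff.mp this).1.symm
  have hfst : ∀ j a, (τ (j, a)).1 = (τ (j, 0)).1 := by
    intro j a
    have h2 : ∀ a : Fin 2, a = 0 ∨ a = 1 := by decide
    rcases h2 a with rfl | rfl
    · rfl
    · exact (h j).symm
  have hr : ∀ j, Function.Injective fun a => (τ (j, a)).2 := by
    intro j a b hab
    simp only at hab
    have : τ (j, a) = τ (j, b) := Prod.ext (by rw [hfst j a, hfst j b]) hab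
    exact (Prod.ext_iff.mp (τ.injective this)).2
  refine ⟨(Equiv.ofBijective _ (Finite.injective_iff_bijective.mp hc),
    fun j => Equiv.ofBijective _ (Finite.injective_iff_bijective.mp (hr j))), ?_⟩
  apply Equiv.ext
  rintro ⟨j, a⟩
  rw [Th_apply]
  exact Prod.ext (hfst j a).symm rfl

theorem pres {m : ℕ} (τ : Equiv.Perm (Fin (m + 1) × Fin 2))
    (h : ∀ j : Fin m, (τ (j.succ, 0)).1 = (τ (j.succ, 1)).1) :
    ∀ j, (τ (j, 0)).1 = (τ (j, 1)).1 := by
  intro j
  refine Fin.cases ?_ h j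
  have hcase2 : ∀ a : Fin 2, a = 0 ∨ a = 1 := by decide
  have hcase : ∀ i : Fin (m + 1), i = 0 ∨ ∃ k : Fin m, i = Fin.succ k := by
    intro i
    exact Fin.cases (Or.inl rfl) (fun j => Or.inr ⟨j, rfl⟩) i
  -- the partner of `τ (0, 0)`
  let q : Fin (m + 1) × Fin 2 := ((τ (0, 0)).1, 1 - (τ (0, 0)).2)
  have hq1 : q.1 = (τ (0, 0)).1 := rfl
  have hqne : q ≠ τ (0, 0) := by
    intro he
    have h3 : ∀ a : Fin 2, 1 - a ≠ a := by decide
    exact h3 _ (Prod.ext_iff.mp he).2
  obtain ⟨⟨i, a⟩, hia⟩ := τ.surjective q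
  rcases hcase i with rfl | ⟨k, rfl⟩
  · rcases hcase2 a with rfl | rfl
    · exact absurd hia.symm hqne
    · rw [hia, hq1]
  · exfalso
    have hk := h k
    have hne : τ (k.succ, 0) ≠ τ (k.succ, 1) := by
      intro he
      have := τ.injective he
      simp at this
    have h4 : (τ (0, 0)).1 = (τ (k.succ, 0)).1 := by
      rw [← hq1, ← hia]
      rcases hcase2 a with rfl | rfl
      · rfl
      · exact hk.symm
    rcases two _ _ (τ (0, 0)) hk hne h4 with h5 | h5
    · have := (Prod.ext_iff.mp (τ.injective h5)).1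
      exact (Fin.succ_ne_zero k) this.symm
    · have := (Prod.ext_iff.mp (τ.injective h5)).1
      exact (Fin.succ_ne_zero k) this.symm

/-- the combinatorial lemma -/
theorem comb (m : ℕ) : ∃ c : ℂ, c ≠ 0 ∧
    ∀ A : Fin (m + 1) × Fin 2 → Fin (m + 1) × Fin 2 → ℂ,
    ∑ τ : Equiv.Perm (Fin (m + 1) × Fin 2), ((Equiv.Perm.sign τ : ℤ) : ℂ) *
      (A (τ (0, 0)) (τ (0, 1)) * ∏ j : Fin m, JJ ℂ (m + 1) (τ (j.succ, 0)) (τ (j.succ, 1))) =
    c * ∑ p, ∑ q, A p q * JJ ℂ (m + 1) p q := by
  refine ⟨(Fintype.card (Equiv.Perm (Fin m)) : ℂ) *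
    (Fintype.card (Fin m → Equiv.Perm (Fin 2)) : ℂ), ?_, ?_⟩
  · apply mul_ne_zero
    · exact_mod_cast Fintype.card_ne_zero
    · exact_mod_cast Fintype.card_ne_zero
  intro A
  have h1 : ∑ x : Equiv.Perm (Fin (m + 1)) × (Fin (m + 1) → Equiv.Perm (Fin 2)),
      (((Equiv.Perm.sign (x.2 0) : ℤ) : ℂ) * A (x.1 0, x.2 0 0) (x.1 0, x.2 0 1)) =
      ∑ τ : Equiv.Perm (Fin (m + 1) × Fin 2), ((Equiv.Perm.sign τ : ℤ) : ℂ) *
      (A (τ (0, 0)) (τ (0, 1)) * ∏ j : Fin m, JJ ℂ (m + 1) (τ (j.succ, 0)) (τ (j.succ, 1))) := by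
    refine Fintype.sum_of_injective Th Th_inj _ _ ?_ ?_
    · intro τ hτ
      have h2 : ∃ j : Fin m, (τ (j.succ, 0)).1 ≠ (τ (j.succ, 1)).1 := by
        by_contra hcon
        push Not at hcon
        obtain ⟨x, hx⟩ := Th_range τ (pres τ hcon)
        exact hτ ⟨x, hx⟩
      obtain ⟨j, hj⟩ := h2
      have h3 : ∏ j : Fin m, JJ ℂ (m + 1) (τ (j.succ, 0)) (τ (j.succ, 1)) = 0 :=
        Finset.prod_eq_zero (Finset.mem_univ j) (if_neg hj)
      rw [h3, mul_zero, mul_zero]
    · intro x
      rw [Th_sign, Fin.prod_univ_succ]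
      simp only [Th_apply]
      have h4 : ∀ j : Fin m, JJ ℂ (m + 1) (x.1 j.succ, x.2 j.succ 0) (x.1 j.succ, x.2 j.succ 1) =
          (((Equiv.Perm.sign (x.2 j.succ) : ℤˣ) : ℤ) : ℂ) := by
        intro j
        rw [← sg_perm]
        exact if_pos rfl
      rw [Finset.prod_congr rfl fun j _ => h4 j]
      have h5 : ((∏ j : Fin m, Equiv.Perm.sign (x.2 j.succ) : ℤˣ) : ℤ) *
          ∏ j : Fin m, ((Equiv.Perm.sign (x.2 j.succ) : ℤˣ) : ℤ) = 1 := by
        rw [Units.coe_prod, ← Finset.prod_mul_distrib]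
        apply Finset.prod_eq_one
        intro j _
        rcases Int.units_eq_one_or (Equiv.Perm.sign (x.2 j.succ)) with h | h <;> rw [h] <;> rfl
      have h6 := congrArg (fun z : ℤ => (z : ℂ)) h5
      simp only [Int.cast_mul, Int.cast_prod, Int.cast_one] at h6
      rw [Units.val_mul, Int.cast_mul]
      calc _ = (((Equiv.Perm.sign (x.2 0) : ℤˣ) : ℤ) : ℂ) *
            A (x.1 0, x.2 0 0) (x.1 0, x.2 0 1) * 1 := by ring
        _ = _ := by
            rw [← h6]
            ring
  rw [← h1, Fintype.sum_prod_type]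
  have h7 : ∀ π : Equiv.Perm (Fin (m + 1)), ∑ ρ : Fin (m + 1) → Equiv.Perm (Fin 2),
      (((Equiv.Perm.sign (ρ 0) : ℤ) : ℂ) * A (π 0, ρ 0 0) (π 0, ρ 0 1)) =
      (Fintype.card (Fin m → Equiv.Perm (Fin 2)) : ℂ) * ∑ r : Equiv.Perm (Fin 2),
        (((Equiv.Perm.sign r : ℤ) : ℂ) * A (π 0, r 0) (π 0, r 1)) := by
    intro π
    have e := Fintype.sum_equiv (Fin.consEquiv fun _ : Fin (m + 1) => Equiv.Perm (Fin 2)).symm
      (fun ρ : Fin (m + 1) → Equiv.Perm (Fin 2) =>
        (((Equiv.Perm.sign (ρ 0) : ℤ) : ℂ) * A (π 0, ρ 0 0) (π 0, ρ 0 1)))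
      (fun x : Equiv.Perm (Fin 2) × (Fin m → Equiv.Perm (Fin 2)) =>
        (((Equiv.Perm.sign x.1 : ℤ) : ℂ) * A (π 0, x.1 0) (π 0, x.1 1))) (fun ρ => rfl)
    rw [e, Fintype.sum_prod_type, Finset.mul_sum]
    apply Finset.sum_congr rfl
    intro r _
    simp only
    rw [Finset.sum_const, Finset.card_univ, nsmul_eq_mul]
  have h8 : ∀ h : Fin (m + 1) → ℂ, ∑ π : Equiv.Perm (Fin (m + 1)), h (π 0) =
      (Fintype.card (Equiv.Perm (Fin m)) : ℂ) * ∑ i, h i := by
    intro h
    have e := Fintype.sum_equiv Equiv.Perm.decomposeFin.symm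
      (fun x : Fin (m + 1) × Equiv.Perm (Fin m) => h x.1)
      (fun π : Equiv.Perm (Fin (m + 1)) => h (π 0)) (fun x => by
        obtain ⟨p, e⟩ := x
        simp only
        rw [Equiv.Perm.decomposeFin_symm_apply_zero])
    rw [← e, Fintype.sum_prod_type, Finset.mul_sum]
    apply Finset.sum_congr rfl
    intro r _
    simp only
    rw [Finset.sum_const, Finset.card_univ, nsmul_eq_mul]
  simp only at h7 ⊢
  rw [Finset.sum_congr rfl fun π _ => h7 π, ← Finset.mul_sum]
  rw [h8 fun i => ∑ r : Equiv.Perm (Fin 2), (((Equiv.Perm.sign r : ℤ) : ℂ) * A (i, r 0) (i, r 1))]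
  rw [← mul_assoc, mul_comm (Fintype.card (Fin m → Equiv.Perm (Fin 2)) : ℂ)]
  congr 1
  -- the sum over the pairs
  rw [Fintype.sum_prod_type]
  apply Finset.sum_congr rfl
  intro i _
  have h9 : ∀ a : Fin 2, ∑ q : Fin (m + 1) × Fin 2, A (i, a) q * JJ ℂ (m + 1) (i, a) q =
      ∑ b : Fin 2, A (i, a) (i, b) * ((sg a b : ℤ) : ℂ) := by
    intro a
    rw [Fintype.sum_prod_type, Finset.sum_eq_single i]
    · apply Finset.sum_congr rfl
      intro b _
      rw [JJ, if_pos rfl]
    · intro k _ hk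
      apply Finset.sum_eq_zero
      intro b _
      rw [JJ, if_neg (fun e => hk e.symm), mul_zero]
    · intro h
      exact absurd (Finset.mem_univ _) h
  rw [Finset.sum_congr rfl fun a _ => h9 a]
  have h10 : (Finset.univ : Finset (Equiv.Perm (Fin 2))) = {1, Equiv.swap 0 1} := by decide
  rw [h10, Finset.sum_pair (by decide), Fin.sum_univ_two, Fin.sum_univ_two, Fin.sum_univ_two]
  have hs00 : sg 0 0 = 0 := by decide
  have hs01 : sg 0 1 = 1 := by decide
  have hs10 : sg 1 0 = -1 := by decide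
  have hs11 : sg 1 1 = 0 := by decide
  have hsw : Equiv.Perm.sign (Equiv.swap (0 : Fin 2) 1) = -1 := by decide
  rw [hs00, hs01, hs10, hs11, hsw, Equiv.Perm.sign_one, Equiv.swap_apply_left,
    Equiv.swap_apply_right]
  simp only [Equiv.Perm.one_apply, Units.val_one, Int.cast_one, one_mul, Units.val_neg,
    Int.cast_neg, neg_mul, Int.cast_zero, mul_zero, mul_one, zero_add, mul_neg, add_zero]

end Pool.Agent.Q2.UY
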